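import Pool.Agent.Helper30_Alex.Final

/-!
# Closed aspherical Alexandrov 3-spaces are not topologically rigid

Two closed, connected, aspherical Alexandrov spaces of dimension 3 which are homotopy equivalent
but not homeomorphic.
-/

set_option autoImplicit false

namespace Pool.Agent.Results.MP_c5ac80_gt.NegativeAnswer

/-- Comparison angle: the angle enclosed by the sides of lengths `a` and `b` of a triangle with
side lengths `a, b, c` in the model plane of constant curvature `k` (law of cosines). -/
noncomputable def compAngle (k a b c : ℝ) : ℝ :=
  if k < 0 then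
    Real.arccos ((Real.cosh (Real.sqrt (-k) * a) * Real.cosh (Real.sqrt (-k) * b) -
        Real.cosh (Real.sqrt (-k) * c)) /
      (Real.sinh (Real.sqrt (-k) * a) * Real.sinh (Real.sqrt (-k) * b)))
  else if k = 0 then Real.arccos ((a ^ 2 + b ^ 2 - c ^ 2) / (2 * a * b))
  else
    Real.arccos ((Real.cos (Real.sqrt k * c) -
        Real.cos (Real.sqrt k * a) * Real.cos (Real.sqrt k * b)) /
      (Real.sin (Real.sqrt k * a) * Real.sin (Real.sqrt k * b)))

/-- The perimeter restriction for comparison triangles (void for `k ≤ 0`). -/
def SmallPerimeter (k a b c : ℝ) : Prop := k ≤ 0 ∨ Real.sqrt k * (a + b + c) < 2 * Real.pi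

/-- Curvature bounded below by `k`, in the form of the four point comparison: for every point `p`
and all points `x, y, z` different from `p` the three comparison angles at `p` add up to at most
`2π`. -/
def CurvatureGE (k : ℝ) (X : Type) [MetricSpace X] : Prop :=
  ∀ p x y z : X, x ≠ p → y ≠ p → z ≠ p →
    SmallPerimeter k (dist p x) (dist p y) (dist x y) →
    SmallPerimeter k (dist p y) (dist p z) (dist y z) →
    SmallPerimeter k (dist p z) (dist p x) (dist z x) →
    compAngle k (dist p x) (dist p y) (dist x y) + compAngle k (dist p y) (dist p z) (dist y z) +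
      compAngle k (dist p z) (dist p x) (dist z x) ≤ 2 * Real.pi

/-- Length space: the distance of two points is the infimum of the lengths of the curves joining
them. -/
def IsLengthSpace (X : Type) [MetricSpace X] : Prop :=
  ∀ x y : X, ∀ ε : ℝ, 0 < ε → ∃ γ : Path x y,
    eVariationOn (γ : unitInterval → X) Set.univ ≤ ENNReal.ofReal (dist x y + ε)

/-- Alexandrov space: complete, locally compact length space of finite Hausdorff dimension with
curvature bounded below by some real number. -/
structure IsAlexandrovSpace (X : Type) [MetricSpace X] : Prop where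
  complete : CompleteSpace X
  locallyCompact : LocallyCompactSpace X
  length : IsLengthSpace X
  finiteDim : dimH (Set.univ : Set X) < ⊤
  curvature : ∃ k : ℝ, CurvatureGE k X

/-- Three-dimensional Euclidean space. -/
abbrev E3 : Type := EuclideanSpace ℝ (Fin 3)

/-- The equivalence relation `x ~ -x` on `E3`. -/
def antipodal : Setoid E3 where
  r x y := x = y ∨ x = -y
  iseqv := ⟨fun _ => Or.inl rfl, fun {x y} h => h.elim (fun h => Or.inl h.symm)
    (fun h => Or.inr (by rw [h, neg_neg])), fun {x y z} h h' => by
      rcases h with rfl | rfl
      · exact h'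
      · rcases h' with rfl | rfl
        · exact Or.inr rfl
        · exact Or.inl (neg_neg _)⟩

/-- The open cone over the projective plane, `E3` modulo the antipodal map, with the quotient
topology. -/
abbrev ConeRP2 : Type := Quotient antipodal

/-- The point `x` of a 3-dimensional Alexandrov space is an interior point: it has an open
neighbourhood homeomorphic to `E3` or to the open cone over the projective plane. -/
def IsInteriorPoint (X : Type) [TopologicalSpace X] (x : X) : Prop :=
  ∃ U : Set X, IsOpen U ∧ x ∈ U ∧ (Nonempty (U ≃ₜ E3) ∨ Nonempty (U ≃ₜ ConeRP2))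

/-- Closed, connected, aspherical Alexandrov space of dimension three: an Alexandrov space of
Hausdorff dimension three which is compact, path connected, consists of interior points only and
whose homotopy groups in all degrees at least two are trivial. -/
structure IsClosedAspherical3 (X : Type) [MetricSpace X] : Prop where
  alexandrov : IsAlexandrovSpace X
  dim : dimH (Set.univ : Set X) = 3
  compact : CompactSpace X
  emptyBoundary : ∀ x : X, IsInteriorPoint X x
  pathConnected : PathConnectedSpace X
  aspherical : ∀ n : ℕ, 2 ≤ n → ∀ x : X, Subsingleton (HomotopyGroup (Fin n) X x)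

theorem compAngle_neg_one (a b c : ℝ) : compAngle (-1) a b c = H30.compAngle 1 a b c := by
  unfold compAngle H30.compAngle
  rw [if_pos (by norm_num), neg_neg, Real.sqrt_one]

theorem antipodal_eq : antipodal = H30.negSetoid := rfl

theorem of_H30 (X : Type) [MetricSpace X] (h : H30.IsClosedAspherical3 X)
    (hc : H30.CurvGE 1 X) : IsClosedAspherical3 X where
  alexandrov :=
    { complete := h.alex.complete
      locallyCompact := h.alex.locallyCompact
      length := h.alex.length
      finiteDim := h.alex.dim_finite
      curvature := ⟨-1, fun p x y z hx hy hz _ _ _ => by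
        rw [compAngle_neg_one, compAngle_neg_one, compAngle_neg_one]
        exact hc p x y z hx hy hz⟩ }
  dim := h.dim
  compact := h.compact
  emptyBoundary x := by
    rcases h.no_boundary x with ⟨U, h1, h2, h3⟩ | ⟨U, h1, h2, h3⟩
    · exact ⟨U, h1, h2, Or.inl h3⟩
    · exact ⟨U, h1, h2, Or.inr h3⟩
  pathConnected := h.pathConnected
  aspherical := h.aspherical

/-- **There are two closed, connected, aspherical Alexandrov spaces of dimension three which are
homotopy equivalent but not homeomorphic.** -/
theorem result : ∃ (X Y : Type) (_ : MetricSpace X) (_ : MetricSpace Y),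
    IsClosedAspherical3 X ∧ IsClosedAspherical3 Y ∧
    Nonempty (ContinuousMap.HomotopyEquiv X Y) ∧ IsEmpty (X ≃ₜ Y) := by
  obtain ⟨h1, h2⟩ := H30.final'
  exact ⟨H30.Xs false, H30.Xs true, inferInstance, inferInstance,
    of_H30 _ (H30.final_closed false) (H30.QS.curvGE one_pos H30.H3.curvGE),
    of_H30 _ (H30.final_closed true) (H30.QS.curvGE one_pos H30.H3.curvGE), h1, h2⟩

end Pool.Agent.Results.MP_c5ac80_gt.NegativeAnswer
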